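import Pool.Agent.Helper25_CON.Stmts

/-!
# CON, C_OFF: a point of the small horoball off all mirrors
-/

noncomputable section

namespace Pool.Agent.CON.H81

open Pool.Agent.H25Cong Topology

variable {n : ℕ}

theorem continuous_B {X : Type} [TopologicalSpace X] {f g : X → V n} (hf : Continuous f)
    (hg : Continuous g) : Continuous fun x => B (f x) (g x) := by
  unfold B
  fun_prop

theorem exists_B_ne {a : V n} (ha : a ≠ 0) : ∃ w : V n, B a w ≠ 0 := by
  by_contra hcon
  push Not at hcon
  apply ha
  ext i
  by_cases hi : i = 0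
  · have h := hcon (ep 0)
    rw [B_ep_zero] at h
    rw [hi]
    simpa using h
  · have h := hcon (ep i)
    rw [B_ep a hi] at h
    simpa using h

theorem lat_countable {L : Submodule ℤ (V n)} (hL : IsLat L) : (L : Set (V n)).Countable := by
  obtain ⟨b, rfl⟩ := hL
  have h : ((Submodule.span ℤ (Set.range b) : Submodule ℤ (V n)) : Set (V n)) ⊆
      Set.range fun c : Fin (n + 1) → ℤ => ∑ i, c i • b i := by
    intro x hx
    obtain ⟨c, hc⟩ := (Submodule.mem_span_range_iff_exists_fun ℤ).mp hx
    exact ⟨c, hc⟩
  exact (Set.countable_range _).mono h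

theorem dense_off {a : V n} (ha : a ≠ 0) : Dense {v : V n | B a v ≠ 0} := by
  obtain ⟨w, hw⟩ := exists_B_ne ha
  rw [dense_iff_inter_open]
  rintro U hU ⟨v, hv⟩
  by_cases h0 : B a v = 0
  · have hc : Continuous fun t : ℝ => v + t • w := by fun_prop
    have h1 : ∀ᶠ t in 𝓝 (0 : ℝ), v + t • w ∈ U := by
      refine hc.continuousAt.eventually (hU.mem_nhds ?_)
      simpa using hv
    have h2 : ∀ᶠ t in 𝓝[≠] (0 : ℝ), v + t • w ∈ U ∧ t ≠ 0 :=
      (h1.filter_mono nhdsWithin_le_nhds).and (eventually_mem_nhdsWithin)
    obtain ⟨t, ht, ht0⟩ := h2.exists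
    refine ⟨v + t • w, ht, ?_⟩
    change B a (v + t • w) ≠ 0
    rw [B_add_right, B_smul_right, h0, zero_add]
    exact mul_ne_zero ht0 hw
  · exact ⟨v, hv, h0⟩

theorem c_off : C_OFF := by
  intro n L e K _ hL he hee hK
  have hopen : IsOpen {v : V n | B v v < 0 ∧ B e v ^ 2 * K < - B v v} := by
    refine IsOpen.inter ?_ ?_
    · exact isOpen_lt (continuous_B continuous_id continuous_id) continuous_const
    · exact isOpen_lt (((continuous_B continuous_const continuous_id).pow 2).mul
        continuous_const) (continuous_B continuous_id continuous_id).neg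
  have hne : {v : V n | B v v < 0 ∧ B e v ^ 2 * K < - B v v}.Nonempty := by
    obtain ⟨f, hf⟩ := exists_B_ne he
    set T := B f f + B e f ^ 2 * K + 1 with hT
    have hfe : B f e = B e f := B_comm f e
    refine ⟨(-(|T| + |B f f| + 1) / (2 * B e f)) • e + f, ?_⟩
    set s := -(|T| + |B f f| + 1) / (2 * B e f) with hs
    have h1 : B (s • e + f) (s • e + f) = 2 * s * B e f + B f f := by
      simp only [B_add_left, B_add_right, B_smul_left, B_smul_right, hee, hfe]
      ring
    have h2 : B e (s • e + f) = B e f := by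
      rw [B_add_right, B_smul_right, hee, mul_zero, zero_add]
    have h3 : 2 * s * B e f = -(|T| + |B f f| + 1) := by
      rw [hs]
      field_simp
    have h4 := le_abs_self T
    have h5 := le_abs_self (B f f)
    have h6 := abs_nonneg T
    have h7 : 0 ≤ B e f ^ 2 * K := by positivity
    have h8 := abs_nonneg (B f f)
    have h9 := neg_abs_le (B f f)
    constructor
    · rw [h1, h3]
      linarith
    · rw [h1, h2, h3]
      linarith
  have hcount : {a : V n | Root L a}.Countable :=
    (lat_countable hL.lat).mono fun a ha => ha.1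
  have hd : Dense (⋂ a ∈ {a : V n | Root L a}, {v : V n | B a v ≠ 0}) := by
    refine dense_biInter_of_isOpen (fun a _ => ?_) hcount fun a ha => ?_
    · exact (isClosed_eq (continuous_B continuous_const continuous_id)
        continuous_const).isOpen_compl
    · refine dense_off ?_
      rintro rfl
      have := ha.2.1
      simp at this
  obtain ⟨v, ⟨hv1, hv2⟩, hv3⟩ := hd.inter_open_nonempty _ hopen hne
  refine ⟨v, hv1, hv2, fun a ha => ?_⟩
  exact Set.mem_iInter₂.mp hv3 a ha

end Pool.Agent.CON.H81

end
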