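import Pool.Agent.Helper25_CON.Stmts
import Pool.Agent.Helper25_Cong.Roots

/-!
# CON, C_SYS: the roots of an even lattice form a root system
-/

noncomputable section

namespace Pool.Agent.CON.H81

open Pool.Agent.H25Cong

variable {n : ℕ}

theorem root_mem {L : Submodule ℤ (V n)} {a x : V n} (ha : Root L a) (hx : x ∈ L) :
    S a x ∈ L := by
  obtain ⟨k, hk⟩ := ha.2.2.1 x hx
  have h : S a x = x - k • a := by
    rw [S_apply]
    congr 1
    rw [B_comm x a, hk, mul_div_assoc, div_self (ne_of_gt ha.2.1), mul_one,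
      Int.cast_smul_eq_zsmul]
  rw [h]
  exact L.sub_mem hx (L.smul_mem k ha.1)

theorem root_refl {L : Submodule ℤ (V n)} {a b : V n} (ha : Root L a) (hb : Root L b) :
    Root L (S a b) := by
  refine ⟨root_mem ha hb.1, ?_, ?_, ?_⟩
  · rw [S_isom]
    exact hb.2.1
  · intro x hx
    obtain ⟨k, hk⟩ := hb.2.2.1 (S a x) (root_mem ha hx)
    refine ⟨k, ?_⟩
    have h1 : B (S a b) x = B b (S a x) := by
      rw [← S_isom a (S a b) x, S_S]
    rw [h1, hk, S_isom]
  · intro k c hc h
    refine hb.2.2.2 k (S a c) (root_mem ha hc) ?_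
    rw [← S_S a b, h, map_smul]

theorem root_red {L : Submodule ℤ (V n)} {a : V n} (ha : Root L a) {c : ℝ} (hc : 0 < c)
    (hca : Root L (c • a)) : c = 1 := by
  obtain ⟨k, hk⟩ := ha.2.2.1 (c • a) hca.1
  obtain ⟨k', hk'⟩ := hca.2.2.1 a ha.1
  have hp := ha.2.1
  have h1 : 2 * c = k := by
    rw [B_smul_right] at hk
    have : (2 * c - k) * B a a = 0 := by linear_combination hk
    rcases mul_eq_zero.mp this with h | h
    · linarith
    · exact absurd h (ne_of_gt hp)
  have h2 : 2 = k' * c := by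
    rw [B_smul_left, B_smul_left, B_smul_right] at hk'
    have : (2 - k' * c) * (c * B a a) = 0 := by linear_combination hk'
    rcases mul_eq_zero.mp this with h | h
    · linarith
    · exact absurd h (ne_of_gt (mul_pos hc hp))
  have h3 : (k : ℝ) * k' = 4 := by rw [← h1]; linear_combination -2 * h2
  have h4 : k * k' = 4 := by exact_mod_cast h3
  have hk0 : 0 < k := by
    have : (0 : ℝ) < k := by rw [← h1]; linarith
    exact_mod_cast this
  have hk4 : k ≤ 4 := Int.le_of_dvd (by norm_num) ⟨k', h4.symm⟩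
  have hcases : k = 1 ∨ k = 2 ∨ k = 3 ∨ k = 4 := by omega
  rcases hcases with rfl | rfl | rfl | rfl
  · have hc2 : c = 1 / 2 := by push_cast at h1; linarith
    have := ha.2.2.2 2 (c • a) hca.1 (by rw [hc2, smul_smul]; norm_num)
    omega
  · push_cast at h1; linarith
  · omega
  · have hc2 : c = 2 := by push_cast at h1; linarith
    have := hca.2.2.2 2 a ha.1 (by rw [hc2]; norm_num)
    omega

theorem root_fin {L : Submodule ℤ (V n)} (hL : IsLat L) {v : V n} (hv : B v v < 0) {K : ℝ}
    (hK : ∀ a, Root L a → B a a ≤ K) (C : ℝ) :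
    {a | a ∈ {a | Root L a} ∧ (B a v) ^ 2 ≤ C * B a a}.Finite := by
  obtain ⟨M, hM⟩ := bdd hv (|C| * |K| + |K|) (by positivity)
  obtain ⟨b, rfl⟩ := hL
  have hbd : Bornology.IsBounded {x : V n | ∀ i, |x i| ≤ M} := by
    refine (Metric.isBounded_closedBall (x := (0 : V n)) (r := |M|)).subset ?_
    intro x hx
    rw [mem_closedBall_zero_iff, pi_norm_le_iff_of_nonneg (abs_nonneg M)]
    intro i
    rw [Real.norm_eq_abs]
    exact (hx i).trans (le_abs_self M)
  refine (ZSpan.setFinite_inter b hbd).subset ?_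
  rintro a ⟨ha, hle⟩
  refine ⟨?_, ha.1⟩
  have h1 : B a a ≤ |K| := (hK a ha).trans (le_abs_self K)
  have h0 : 0 ≤ B a a := ha.2.1.le
  refine hM a ?_ ?_
  · have : 0 ≤ |C| * |K| := by positivity
    linarith
  · refine hle.trans ?_
    have h3 : C * B a a ≤ |C| * B a a := mul_le_mul_of_nonneg_right (le_abs_self C) h0
    have h4 : |C| * B a a ≤ |C| * |K| := mul_le_mul_of_nonneg_left h1 (abs_nonneg C)
    have h5 : 0 ≤ |K| := abs_nonneg K
    linarith

theorem c_sys (hbdd : C_BDD) : C_SYS := by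
  intro n L v hL hv hne
  obtain ⟨K, -, hK⟩ := hbdd n L hL
  exact ⟨hv, fun r hr => hr.2.1, fun a ha b hb => root_refl ha hb, root_fin hL.lat hv hK,
    fun a ha c hc hca => root_red ha hc hca, hne⟩

end Pool.Agent.CON.H81

end
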